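import Pool.Agent.H23.LB.Tools

/-!
# The Lindelof hypothesis on average over the Hecke characters of a number field: targets
-/

set_option autoImplicit false

open NumberField NumberField.InfinitePlace NumberField.Units
  NumberField.Units.dirichletUnitTheorem MeasureTheory Set Filter Complex
open scoped nonZeroDivisors ENNReal

namespace Pool.Agent.H23.LB

open Pool.Agent.H25.HK Pool.Agent.H28.RC

/-! ### Part A: lattices -/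

/-- (MS) integrals of theta functions of two unimodular lattices. -/
def T_MS : Prop :=
  ∀ n : ℕ, 0 < n → ∃ B : ℝ, ∀ κ : ℝ, 0 < κ → κ ≤ 1 → ∃ C : ℝ, ∀ (ι : Type) [Fintype ι]
    [DecidableEq ι] (P Q : Matrix ι ι ℝ), P.PosDef → Q.PosDef → P.det = 1 → Q.det = 1 →
    Fintype.card ι = n → ∀ N b : ℝ, 1 ≤ N → 0 < b → b ≤ 1 →
    (IntegrableOn (fun T => (Fs P (T * b / N) - 1) * Fs Q (T * b) * T ^ (κ / 2)) (Ioi 1) ∧
    ∫ T in Ioi (1 : ℝ), (Fs P (T * b / N) - 1) * Fs Q (T * b) * T ^ (κ / 2) ≤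
      C * b ^ (-B) * (N * (AF κ Q + AF κ Q⁻¹) + N ^ (1 + κ) * (AF κ P + AF κ P⁻¹))) ∧
    (IntegrableOn (fun T => N * ((Fs Q⁻¹ (T * b) - 1) * Fs P⁻¹ (T * b * N)) * T ^ (κ / 2))
      (Ioi 1) ∧
    ∫ T in Ioi (1 : ℝ), N * ((Fs Q⁻¹ (T * b) - 1) * Fs P⁻¹ (T * b * N)) * T ^ (κ / 2) ≤
      C * b ^ (-B) * (N * (AF κ Q + AF κ Q⁻¹) + N ^ (1 + κ) * (AF κ P + AF κ P⁻¹)))

/-- (LF) a lower bound for the Epstein zeta function. -/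
def T_LF : Prop :=
  ∀ κ : ℝ, 0 < κ → ∃ c : ℝ, 0 < c ∧ ∀ (ι : Type) [Fintype ι] [DecidableEq ι] [Nonempty ι]
    (P : Matrix ι ι ℝ), P.PosDef → P.det = 1 → c ≤ AF κ P

/-! ### Part B: real theta functions of number fields -/

open scoped Classical in
/-- (NS) the lattice `(M, z)` as a positive definite matrix. -/
def T_NS : Prop :=
  ∀ (K : Type) [Field K] [NumberField K] (M : FI K) (z : logSpace K), M ≠ 0 →
    ∃ (P : Matrix (mixedEmbedding.index K) (mixedEmbedding.index K) ℝ), P.PosDef ∧ P.det = 1 ∧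
      ∀ T : ℝ, 0 < T → Fs P T = FT K M z T ∧ Fs P⁻¹ T = FT K (du K M) (-z) T

/-- (FP) properties of the normalised theta function. -/
def T_FP : Prop :=
  ∀ (K : Type) [Field K] [NumberField K] (M : FI K), M ≠ 0 →
    ContinuousOn (fun p : ℝ × logSpace K => FT K M p.2 p.1) (Ioi 0 ×ˢ univ) ∧
    (∀ z : logSpace K, ∀ l ∈ unitLattice K, ∀ T, FT K M (z + l) T = FT K M z T) ∧
    (∀ z T, 0 < T → 1 ≤ FT K M z T ∧ FT K M z (1 / T) = T * FT K (du K M) (-z) T) ∧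
    (∀ z, AntitoneOn (FT K M z) (Ioi 0)) ∧
    (∀ B : ℝ, ∃ C c : ℝ, 0 < c ∧ ∀ T : ℝ, 1 ≤ T → ∀ z : logSpace K, (∀ w, |z w| ≤ B) →
      |FT K M z T - 1| ≤ C * Real.exp (-c * T ^ ((2 : ℝ) / Module.finrank ℚ K))) ∧
    ∀ κ : ℝ, 0 < κ → Continuous (fun z => AK K κ M z) ∧
      (∀ z : logSpace K, ∀ l ∈ unitLattice K, AK K κ M (z + l) = AK K κ M z) ∧
      ∀ z, IntegrableOn (fun T => (FT K M z T - 1) * T ^ κ) (Ioi 0)

/-- (MV) the same for ideal lattices. -/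
def T_MV : Prop :=
  ∀ n : ℕ, 0 < n → ∃ B : ℝ, ∀ κ : ℝ, 0 < κ → κ ≤ 1 → ∃ C : ℝ, ∀ (K : Type) [Field K]
    [NumberField K], Module.finrank ℚ K = n → ∀ (f : Ideal (𝓞 K)) (M : FI K) (z : logSpace K)
    (b : ℝ), f ≠ ⊥ → M ≠ 0 → 0 < b → b ≤ 1 →
    (IntegrableOn (fun T => (FT K M z (T * b / Nf K f) - 1) *
      FT K ((f : FI K) * M) z (T * b) * T ^ (κ / 2)) (Ioi 1) ∧
    ∫ T in Ioi (1 : ℝ), (FT K M z (T * b / Nf K f) - 1) *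
        FT K ((f : FI K) * M) z (T * b) * T ^ (κ / 2) ≤
      C * b ^ (-B) * (Nf K f * (AK K κ ((f : FI K) * M) z +
        AK K κ (du K ((f : FI K) * M)) (-z)) +
        Nf K f ^ (1 + κ) * (AK K κ M z + AK K κ (du K M) (-z)))) ∧
    (IntegrableOn (fun T => Nf K f * ((FT K (du K ((f : FI K) * M)) (-z) (T * b) - 1) *
      FT K (du K M) (-z) (T * b * Nf K f)) * T ^ (κ / 2)) (Ioi 1) ∧
    ∫ T in Ioi (1 : ℝ), Nf K f * ((FT K (du K ((f : FI K) * M)) (-z) (T * b) - 1) *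
        FT K (du K M) (-z) (T * b * Nf K f)) * T ^ (κ / 2) ≤
      C * b ^ (-B) * (Nf K f * (AK K κ ((f : FI K) * M) z +
        AK K κ (du K ((f : FI K) * M)) (-z)) +
        Nf K f ^ (1 + κ) * (AK K κ M z + AK K κ (du K M) (-z)))) ∧
    (1 : ℝ) ≤ C * AK K κ M z

/-! ### Part C: algebra -/

/-- (RP) multiples and duals of representatives. -/
def T_RR : Prop :=
  ∀ (K : Type) [Field K] [NumberField K] (ι : Type) (M : ι → FI K), Reps K M →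
    (∀ f : Ideal (𝓞 K), f ≠ ⊥ → Reps K (fun c => (f : FI K) * M c)) ∧
    Reps K (fun c => du K (M c)) ∧ ∀ [Fintype ι], Fintype.card ι = classNumber K

/-- (SY) systems of representatives exist. -/
def T_SY : Prop :=
  ∀ (K : Type) [Field K] [NumberField K] (f : Ideal (𝓞 K)), f ≠ ⊥ → Nonempty (Sys K f)

/-- (CF) properties of the coefficients. -/
def T_CF : Prop :=
  ∀ (K : Type) [Field K] [NumberField K] (f : Ideal (𝓞 K)) (χ : HC K f) (M : FI K), f ≠ ⊥ →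
    M ≠ 0 →
    (∀ x ∈ M, x ≠ 0 → cf χ M x = sg K χ.S x * (starRingEnd ℂ) (ph χ.ν x) * χ.ψ (idl K M x)) ∧
    (∀ x ∈ M, ‖cf χ M x‖ ≤ 1) ∧
    (∀ a : 𝓞 K, a ≠ 0 → ∀ x ∈ M, cf χ M ((a : K) * x) =
      sg K χ.S a * (starRingEnd ℂ) (ph χ.ν (a : K)) * χ.ψ (Ideal.span {a}) * cf χ M x) ∧
    (∀ u : (𝓞 K)ˣ, ∀ x ∈ M, cf χ M ((u : K) * x) =
      sg K χ.S (u : K) * (starRingEnd ℂ) (ph χ.ν (u : K)) * cf χ M x) ∧
    (∀ x ∈ M, ∀ l ∈ (f : FI K) * M, cf χ M (x + l) = cf χ M x) ∧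
    (∀ x ∈ M, x ≠ 0 → idl K M x ⊔ f = ⊤ → ‖cf χ M x‖ = 1) ∧
    (∀ x ∈ M, x ≠ 0 → idl K M x ⊔ f ≠ ⊤ → cf χ M x = 0) ∧
    (f ≠ ⊤ → cf χ M 0 = 0) ∧ (f = ⊤ → ‖cf χ M 0‖ = 1)

/-- (PU) the phases of units and the linear form. -/
def T_PU : Prop :=
  ∀ (K : Type) [Field K] [NumberField K],
    (∀ (ν : InfinitePlace K → ℝ) (u : (𝓞 K)ˣ),
      ph ν (u : K) = cexp ((pr K ν (logEmbedding K (Additive.ofMul u)) : ℝ) * I)) ∧
    (∀ (ν : InfinitePlace K → ℝ), ∑ v, (v.mult : ℝ) * ν v = 0 → ∀ (τ : ℝ) (z : logSpace K),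
      pr K ν z = (∑ v, (v.mult : ℝ) * ν v * yc K τ z v) / 2) ∧
    (∀ (ν : InfinitePlace K → ℝ), ∑ v, (v.mult : ℝ) * ν v = 0 → (∀ z, pr K ν z = 0) → ν = 0) ∧
    (∀ (ν : InfinitePlace K → ℝ) (z : logSpace K) (u : (𝓞 K)ˣ),
      ec K ν (z + logEmbedding K (Additive.ofMul u)) =
        (starRingEnd ℂ) (ph ν (u : K)) * ec K ν z) ∧
    (∀ (ν : InfinitePlace K → ℝ), Continuous (ec K ν) ∧ ∀ z, ‖ec K ν z‖ = 1) ∧
    (∀ (ν : InfinitePlace K → ℝ) (x y : K), x ≠ 0 → y ≠ 0 → ph ν (x * y) = ph ν x * ph ν y) ∧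
    ∀ (ν : InfinitePlace K → ℝ) (x : K), ‖ph ν x‖ = 1

open scoped Classical in
/-- (OR) orthogonality of the characters. -/
def T_OR : Prop :=
  ∀ (K : Type) [Field K] [NumberField K] (f : Ideal (𝓞 K)), f ≠ ⊥ → ∀ (D : Sys K f)
    (χ χ' : HC K f), χ.S = χ'.S →
    (χ ≠ χ' → ∑ c, ∑ r ∈ D.X c, cf χ (D.M c) r * (starRingEnd ℂ) (cf χ' (D.M c) r) *
      ∫ z in Fd K, ec K χ.ν z * (starRingEnd ℂ) (ec K χ'.ν z) = 0) ∧
    ∑ c, ∑ r ∈ D.X c, ‖cf χ (D.M c) r‖ ^ 2 = (classNumber K : ℝ) * Phi K f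

open scoped Classical in
/-- (BE) the inequality of Bessel. -/
def T_BE : Prop :=
  ∀ (K : Type) [Field K] [NumberField K] (f : Ideal (𝓞 K)), f ≠ ⊥ → ∀ (D : Sys K f)
    (S : Finset (RP K)) (Y : Finset (HC K f)), (∀ χ ∈ Y, χ.S = S) →
    ∀ F : D.ι → K → logSpace K → ℂ, (∀ c, ∀ r ∈ D.X c, Continuous (F c r)) →
    ∑ χ ∈ Y, ‖∑ c, ∑ r ∈ D.X c, cf χ (D.M c) r * ∫ z in Fd K, ec K χ.ν z * F c r z‖ ^ 2 ≤
      ((classNumber K : ℝ) * regulator K * Phi K f) *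
        ∑ c, ∑ r ∈ D.X c, ∫ z in Fd K, ‖F c r z‖ ^ 2

open scoped Classical in
/-- (PO) the polar terms vanish for nontrivial characters. -/
def T_PO' : Prop :=
  ∀ (K : Type) [Field K] [NumberField K] (f : Ideal (𝓞 K)), f ≠ ⊥ → ∀ (D : Sys K f)
    (χ : HC K f), (∃ I : Ideal (𝓞 K), χ.ψ I ≠ 0 ∧ χ.ψ I ≠ 1) →
    (∑ c, ∑ r ∈ D.X c, cf χ (D.M c) r * ((∫ z in Fd K, ec K χ.ν z) *
      d0 K χ.S f (D.M c) r) = 0) ∧
    ∑ c, ∑ r ∈ D.X c, cf χ (D.M c) r * ((∫ z in Fd K, ec K χ.ν z) * d1 K χ.S) = 0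

/-! ### Part D: complex theta functions -/

/-- (TZ) the functional equation. -/
def T_TZ : Prop :=
  ∀ (K : Type) [Field K] [NumberField K] (S : Finset (RP K)) (f : Ideal (𝓞 K)) (M : FI K)
    (X : Finset K) (c : K → ℂ), f ≠ ⊥ → M ≠ 0 → Rep K f M X →
    (∀ x ∈ M, ∀ l ∈ (f : FI K) * M, c (x + l) = c x) → ∀ (y : InfinitePlace K → ℝ) (ζ : ℂ),
    |ζ.im| < Real.pi / 2 →
    tz K S M c ζ y = ((Real.exp (-(∑ v, (v.mult : ℝ) * y v) / 2) *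
      (cv K ((f : FI K) * M))⁻¹ : ℝ) : ℂ) * cexp (-(Module.finrank ℚ K * ζ / 2)) *
      (-I) ^ S.card * tz K S (du K ((f : FI K) * M)) (ft K X c) (-ζ) (-y)

/-- (WF) the functional equation of `W`. -/
def T_WF : Prop :=
  ∀ (K : Type) [Field K] [NumberField K] (S : Finset (RP K)) (f : Ideal (𝓞 K)) (M : FI K)
    (r : K) (φ : ℝ), f ≠ ⊥ → M ≠ 0 → r ∈ M → |φ| < Real.pi / 2 →
    ∀ (z : logSpace K) (T : ℝ), 0 < T → W K S f M r φ z (1 / T) =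
      T * rn K S φ * W' K S f M r φ z T

/-- (WC) absolute convergence, continuity and decay. -/
def T_WC : Prop :=
  ∀ (K : Type) [Field K] [NumberField K] (S : Finset (RP K)) (f : Ideal (𝓞 K)) (M : FI K)
    (r : K) (φ : ℝ), f ≠ ⊥ → M ≠ 0 → r ∈ M → |φ| < Real.pi / 2 →
    (∀ (N : FI K) (c : K → ℂ) (ζ : ℂ), N ≠ 0 → (∀ x ∈ N, ‖c x‖ ≤ 1) → |ζ.im| < Real.pi / 2 →
      ∀ y, Summable fun x : {x : K // x ∈ N} => ‖c x * ((ws K S y x : ℝ) : ℂ) *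
        (cexp (ζ * S.card / 2) * cexp (-Real.pi * (cexp ζ * ((qK K y x : ℝ) : ℂ))))‖) ∧
    ContinuousOn (fun p : ℝ × logSpace K => W K S f M r φ p.2 p.1) (Ioi 0 ×ˢ univ) ∧
    ContinuousOn (fun p : ℝ × logSpace K => W' K S f M r φ p.2 p.1) (Ioi 0 ×ˢ univ) ∧
    ∀ B : ℝ, ∃ C c : ℝ, 0 < c ∧ ∀ T : ℝ, 1 ≤ T → ∀ z : logSpace K, (∀ w, |z w| ≤ B) →
      ‖W K S f M r φ z T - d0 K S f M r‖ ≤
        C * Real.exp (-c * T ^ ((2 : ℝ) / Module.finrank ℚ K)) ∧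
      ‖W' K S f M r φ z T - d1 K S‖ ≤
        C * Real.exp (-c * T ^ ((2 : ℝ) / Module.finrank ℚ K))

/-- (H1) the pair inequality. -/
def T_H1 : Prop :=
  ∀ (K : Type) [Field K] [NumberField K] (S : Finset (RP K)) (f : Ideal (𝓞 K)) (M : FI K)
    (X : Finset K) (φ : ℝ), f ≠ ⊥ → M ≠ 0 → Rep K f M X → |φ| < Real.pi / 2 →
    ∀ (z : logSpace K) (T b : ℝ), 0 < T →
    b = (Real.cos φ / 6) ^ ((Module.finrank ℚ K : ℝ) / 2) →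
    ∑ r ∈ X, ‖W K S f M r φ z T - d0 K S f M r‖ ^ 2 ≤
      Real.cos φ ^ (-(Module.finrank ℚ K : ℝ)) *
        ((FT K M z (T * b / Nf K f) - 1) * FT K ((f : FI K) * M) z (T * b))

/-- (H2) the dual pair inequality. -/
def T_H2 : Prop :=
  ∀ (K : Type) [Field K] [NumberField K] (S : Finset (RP K)) (f : Ideal (𝓞 K)) (M : FI K)
    (X : Finset K) (φ : ℝ), f ≠ ⊥ → M ≠ 0 → Rep K f M X → |φ| < Real.pi / 2 →
    ∀ (z : logSpace K) (T b : ℝ), 0 < T →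
    b = (Real.cos φ / 6) ^ ((Module.finrank ℚ K : ℝ) / 2) →
    ∑ r ∈ X, ‖W' K S f M r φ z T - d1 K S‖ ^ 2 ≤
      Real.cos φ ^ (-(Module.finrank ℚ K : ℝ)) *
        (Nf K f * ((FT K (du K ((f : FI K) * M)) (-z) (T * b) - 1) *
          FT K (du K M) (-z) (T * b * Nf K f)))

open scoped Classical in
/-- (AZ) the Mellin transform. -/
def T_AZ : Prop :=
  ∀ (K : Type) [Field K] [NumberField K] (S : Finset (RP K)) (f : Ideal (𝓞 K)) (M : FI K)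
    (r : K) (φ : ℝ), f ≠ ⊥ → M ≠ 0 → r ∈ M → |φ| < Real.pi / 2 →
    (∀ (z : logSpace K) (s : ℂ), 1 < s.re →
      IntegrableOn (fun T : ℝ => (W K S f M r φ z T - d0 K S f M r) * (T : ℂ) ^ (s - 1))
        (Ioi 0) ∧
      EZ K S f M r φ z s = ∫ T in Ioi (0 : ℝ),
        (W K S f M r φ z T - d0 K S f M r) * (T : ℂ) ^ (s - 1)) ∧
    (∀ s : ℂ, Continuous (fun z => E0 K S f M r φ z s)) ∧
    (∀ ν : InfinitePlace K → ℝ,
      Differentiable ℂ (fun s => ∫ z in Fd K, ec K ν z * E0 K S f M r φ z s)) ∧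
    ∀ (z : logSpace K) (s : ℂ),
      IntegrableOn (fun T : ℝ => (W K S f M r φ z T - d0 K S f M r) * (T : ℂ) ^ (s - 1))
        (Ioi 1) ∧
      IntegrableOn (fun T : ℝ => (W' K S f M r φ z T - d1 K S) * (T : ℂ) ^ (-s)) (Ioi 1)

open scoped Classical in
/-- (GZ) the Gamma integral. -/
def T_GZ : Prop :=
  ∀ (K : Type) [Field K] [NumberField K] (S : Finset (RP K)) (x : K)
    (ν : InfinitePlace K → ℝ) (φ : ℝ) (s : ℂ), x ≠ 0 → ∑ v, (v.mult : ℝ) * ν v = 0 →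
    |φ| < Real.pi / 2 → 0 < s.re →
    Integrable (fun p : ℝ × logSpace K => ((|ws K S (yc K p.1 p.2) x| : ℝ) : ℂ) *
      cexp (-Real.pi * (cexp (φ * I) * ((qK K (yc K p.1 p.2) x : ℝ) : ℂ))) *
        (cexp (s * p.1) * ec K ν p.2)) ∧
    ∫ p : ℝ × logSpace K, ((|ws K S (yc K p.1 p.2) x| : ℝ) : ℂ) *
      cexp (-Real.pi * (cexp (φ * I) * ((qK K (yc K p.1 p.2) x : ℝ) : ℂ))) *
        (cexp (s * p.1) * ec K ν p.2) =
      ((2 : ℂ) ^ (nrRealPlaces K + nrComplexPlaces K))⁻¹ * gS K S ν s *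
        (((|Algebra.norm ℚ x| : ℚ) : ℝ) : ℂ) ^ (-s) * ph ν x *
        cexp (-(φ * (Module.finrank ℚ K * s + S.card) / 2) * I)

/-- (UZ) unfolding. -/
def T_UZ : Prop :=
  ∀ (K : Type) [Field K] [NumberField K] (f : Ideal (𝓞 K)), f ≠ ⊥ → ∀ (D : Sys K f)
    (χ : HC K f) (φ : ℝ), |φ| < Real.pi / 2 → ∀ s : ℂ, 1 < s.re →
    Lam D χ φ s = (cw K : ℂ) * ((dN K f : ℝ) : ℂ) ^ s * gS K χ.S χ.ν s *
      cexp (-(φ * (Module.finrank ℚ K * s) / 2) * I) * χ.series s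

/-! ### Part E: averages, the Gamma factor, counting -/

open scoped Classical in
/-- (A1) the mean value of the Epstein zeta function at `1 + κ`. -/
def T_A1 : Prop :=
  ∀ (n : ℕ) (κ : ℝ), 0 < κ → ∃ C : ℝ, ∀ (K : Type) [Field K] [NumberField K],
    Module.finrank ℚ K = n → ∀ (ι : Type) [Fintype ι] (M : ι → FI K), Reps K M →
    ∑ c, ∫ z in Fd K, AK K κ (M c) z ≤ C * cw K * |(discr K : ℝ)| ^ ((1 + κ) / 2) ∧
    ∑ c, ∫ z in Fd K, AK K κ (M c) (-z) ≤ C * cw K * |(discr K : ℝ)| ^ ((1 + κ) / 2)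

/-- (GL) the lower bound for the Gamma factor. -/
def T_GL : Prop :=
  ∀ (n : ℕ) (R : ℝ), ∃ A c : ℝ, 0 < c ∧ ∀ (K : Type) [Field K] [NumberField K],
    Module.finrank ℚ K = n → ∀ (S : Finset (RP K)) (ν : InfinitePlace K → ℝ),
    (∀ v, |ν v| ≤ R) → ∀ s : ℂ, 1 / 4 ≤ s.re → s.re ≤ 3 / 4 →
      c * (1 + |s.im|) ^ (-A) * Real.exp (-(Real.pi * n * |s.im| / 4)) ≤ ‖gS K S ν s‖

/-- (GD) the inverse of the Gamma factor is entire, and the Gamma factor does not vanish for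
`Re s > 0`; a lower bound for real `s`. -/
def T_GD : Prop :=
  ∀ (K : Type) [Field K] [NumberField K] (S : Finset (RP K)) (ν : InfinitePlace K → ℝ),
    Differentiable ℂ (fun s => (gS K S ν s)⁻¹) ∧ (∀ s : ℂ, 0 < s.re → gS K S ν s ≠ 0) ∧
    ∀ σ R : ℝ, 0 < σ → ∃ c : ℝ, 0 < c ∧ ∀ ν' : InfinitePlace K → ℝ, (∀ v, |ν' v| ≤ R) →
      c ≤ ‖gS K S ν' (σ : ℂ)‖

/-- (SE) the series converge absolutely; bounds. -/
def T_SE : Prop :=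
  (∀ (K : Type) [Field K] [NumberField K] (s : ℂ), 1 < s.re →
    Summable (fun I : {I : Ideal (𝓞 K) // I ≠ ⊥} => ‖(Ideal.absNorm I.1 : ℂ) ^ (-s)‖)) ∧
  (∀ (n : ℕ) (σ : ℝ), 1 < σ → ∃ C : ℝ, ∀ (K : Type) [Field K] [NumberField K],
    Module.finrank ℚ K = n →
    ∑' I : {I : Ideal (𝓞 K) // I ≠ ⊥}, (Ideal.absNorm I.1 : ℝ) ^ (-σ) ≤ C) ∧
  ∀ (K : Type) [Field K] [NumberField K] (f : Ideal (𝓞 K)), f ≠ ⊥ → ∃ σ : ℝ, 1 < σ ∧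
    ∀ χ : HC K f, 1 / 2 ≤ ‖χ.series σ‖

/-- (CH) the number of characters. -/
def T_CH : Prop :=
  ∀ (n : ℕ) (R : ℝ), 0 < R → ∃ c : ℝ, 0 < c ∧ ∀ (K : Type) [Field K] [NumberField K],
    Module.finrank ℚ K = n → ∀ f : Ideal (𝓞 K), f ≠ ⊥ → ∃ Y : Finset (HC K f),
      (∀ χ ∈ Y, χ ∈ fam K f R) ∧ c * (classNumber K * regulator K * Phi K f) ≤ Y.card

/-- (FN) the family is finite. -/
def T_FN : Prop :=
  ∀ (K : Type) [Field K] [NumberField K] (f : Ideal (𝓞 K)) (R : ℝ), f ≠ ⊥ → (fam K f R).Finite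

/-! ### Part F: assembly -/

/-- (BD) the bound for the Mellin transforms. -/
def T_BD' : Prop :=
  ∀ n : ℕ, 0 < n → ∃ B : ℝ, ∀ κ : ℝ, 0 < κ → κ ≤ 1 → ∃ C : ℝ, ∀ (K : Type) [Field K]
    [NumberField K], Module.finrank ℚ K = n → ∀ (S : Finset (RP K)) (f : Ideal (𝓞 K))
    (M : FI K) (X : Finset K) (φ : ℝ), f ≠ ⊥ → M ≠ 0 → Rep K f M X → |φ| < Real.pi / 2 →
    ∀ (z : logSpace K) (s : ℂ), |s.re - 1 / 2| ≤ κ / 8 →
    ∑ r ∈ X, ‖EZ K S f M r φ z s‖ ^ 2 ≤ C * Real.cos φ ^ (-B) *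
      (Nf K f * (AK K κ ((f : FI K) * M) z + AK K κ (du K ((f : FI K) * M)) (-z)) +
        Nf K f ^ (1 + κ) * (AK K κ M z + AK K κ (du K M) (-z)))

/-- (PH) rotation. -/
def T_PH : Prop :=
  ∀ (K : Type) [Field K] [NumberField K] (f : Ideal (𝓞 K)), f ≠ ⊥ → ∀ (D : Sys K f)
    (χ : HC K f) (φ : ℝ), |φ| < Real.pi / 2 → ∀ s : ℂ, s ≠ 0 → s ≠ 1 →
    Lam D χ φ s = cexp (-(φ * (Module.finrank ℚ K * s) / 2) * I) * Lam D χ 0 s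

/-- (LA) the analytic continuation. -/
def T_LA : Prop :=
  ∀ (K : Type) [Field K] [NumberField K] (f : Ideal (𝓞 K)), f ≠ ⊥ → ∀ (D : Sys K f)
    (χ : HC K f), (∀ s : ℂ, s ≠ 0 → s ≠ 1 → DifferentiableAt ℂ (Lam D χ 0) s) ∧
    ((∃ I : Ideal (𝓞 K), χ.ψ I ≠ 0 ∧ χ.ψ I ≠ 1) → ∃ Λ : ℂ → ℂ, Differentiable ℂ Λ ∧
      ∀ s : ℂ, s ≠ 0 → s ≠ 1 → Lam D χ 0 s = Λ s)

/-- (MQ) the mean square in a strip. -/
def T_MQ : Prop :=
  ∀ n : ℕ, 0 < n → ∀ R : ℝ, ∃ A : ℝ, ∀ κ : ℝ, 0 < κ → κ ≤ 1 → ∃ C : ℝ, ∀ (K : Type) [Field K]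
    [NumberField K], Module.finrank ℚ K = n → ∀ (f : Ideal (𝓞 K)), f ≠ ⊥ → ∀ (D : Sys K f)
    (Y : Finset (HC K f)), (∀ χ ∈ Y, χ ∈ fam K f R) → ∀ s : ℂ, |s.re - 1 / 2| ≤ κ / 8 →
    ∑ χ ∈ Y, ‖Lam D χ 0 s / ((cw K : ℂ) * ((dN K f : ℝ) : ℂ) ^ s * gS K χ.S χ.ν s)‖ ^ 2 ≤
      C * (1 + |s.im|) ^ A * dN K f ^ (2 * κ) * (classNumber K * regulator K * Phi K f)

end Pool.Agent.H23.LB
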