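import Pool.Agent.H28.RC.Targets1

/-!
# The Lindelof hypothesis on average over the Hecke characters of a number field: definitions
-/

set_option autoImplicit false

open NumberField NumberField.InfinitePlace NumberField.Units
  NumberField.Units.dirichletUnitTheorem MeasureTheory Set Filter Complex
open scoped nonZeroDivisors ENNReal

namespace Pool.Agent.H23.LB

open Pool.Agent.H25.HK Pool.Agent.H28.RC

section NF

variable {K : Type} [Field K] [NumberField K]

/-- the phase `∏_v |x|_v ^ (i e_v ν_v)` -/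
noncomputable def ph (ν : InfinitePlace K → ℝ) (x : K) : ℂ :=
  cexp ((∑ v, (v.mult : ℝ) * ν v * Real.log (v x) : ℝ) * I)

variable (K)

/-- A unitary Hecke character of `K` modulo `f` which is spherical at the complex places: a
multiplicative function `ψ` on the ideals, of absolute value `1` at the nonzero ideals prime to
`f` and `0` at the others, with `ψ((a)) = ∏_{v ∈ S} sgn_v(a) ∏_v |a|_v ^ (i e_v ν_v)` for
`a ≡ 1 mod f` (`e_v = 1` for real and `2` for complex places `v`), normalised by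
`∑ e_v ν_v = 0`. -/
structure HC (f : Ideal (𝓞 K)) where
  /-- the character -/
  ψ : Ideal (𝓞 K) → ℂ
  /-- the real places with sign -/
  S : Finset (RP K)
  /-- the frequencies -/
  ν : InfinitePlace K → ℝ
  map_top : ψ ⊤ = 1
  map_mul : ∀ I J, ψ (I * J) = ψ I * ψ J
  map_bot : ψ ⊥ = 0
  norm_one : ∀ I, I ≠ ⊥ → I ⊔ f = ⊤ → ‖ψ I‖ = 1
  eq_zero : ∀ I, I ⊔ f ≠ ⊤ → ψ I = 0
  princ : ∀ a : 𝓞 K, a ≠ 0 → a - 1 ∈ f → ψ (Ideal.span {a}) = sg K S (a : K) * ph ν (a : K)
  norm_zero : ∑ v, (v.mult : ℝ) * ν v = 0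

variable {K} {f : Ideal (𝓞 K)}

/-- the Dirichlet series -/
noncomputable def HC.series (χ : HC K f) (s : ℂ) : ℂ :=
  ∑' I : {I : Ideal (𝓞 K) // I ≠ ⊥}, χ.ψ I.1 * (Ideal.absNorm I.1 : ℂ) ^ (-s)

variable (K)

/-- the characters modulo `f` with frequencies at most `R` -/
def fam (f : Ideal (𝓞 K)) (R : ℝ) : Set (HC K f) := {χ | ∀ v, |χ.ν v| ≤ R}

/-- the number of residue classes modulo `f` prime to `f` -/
noncomputable def Phi (f : Ideal (𝓞 K)) : ℕ := Nat.card (𝓞 K ⧸ f)ˣ

end NF

end Pool.Agent.H23.LB
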