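import Pool.Agent.H23.LB.Defs

/-!
# The Lindelof hypothesis on average over the Hecke characters of a number field: tools
-/

set_option autoImplicit false

open NumberField NumberField.InfinitePlace NumberField.Units
  NumberField.Units.dirichletUnitTheorem MeasureTheory Set Filter Complex
open scoped nonZeroDivisors ENNReal

namespace Pool.Agent.H23.LB

open Pool.Agent.H25.HK Pool.Agent.H28.RC

/-! ### Positive definite forms -/

section Forms

variable {ι : Type} [Fintype ι]

/-- the value of the form at an integral vector -/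
noncomputable def qz (S : Matrix ι ι ℝ) (k : ι → ℤ) : ℝ := qf S (fun i => (k i : ℝ))

/-- the theta series, normalised such that `T` scales the volume -/
noncomputable def Fs (S : Matrix ι ι ℝ) (T : ℝ) : ℝ :=
  ∑' k : ι → ℤ, Real.exp (-Real.pi * (T ^ ((2 : ℝ) / Fintype.card ι) * qz S k))

/-- the completed Epstein zeta function at `1 + κ` -/
noncomputable def AF (κ : ℝ) (S : Matrix ι ι ℝ) : ℝ := ∫ T in Ioi (0 : ℝ), (Fs S T - 1) * T ^ κ

end Forms

section NF

variable (K : Type) [Field K] [NumberField K]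

/-- `M` is a system of representatives of the ideal classes -/
def Reps {ι : Type} (M : ι → FI K) : Prop :=
  (∀ c, M c ≠ 0) ∧ ∀ I : Ideal (𝓞 K), I ≠ ⊥ → ∃! c, Pri K (M c) I

/-- representatives of the ideal classes and of the residue classes -/
structure Sys (f : Ideal (𝓞 K)) where
  ι : Type
  [fin : Fintype ι]
  M : ι → FI K
  X : ι → Finset K
  reps : Reps K M
  rep : ∀ c, Rep K f (M c) (X c)

attribute [instance] Sys.fin

/-- the norm of `f` -/
noncomputable def Nf (f : Ideal (𝓞 K)) : ℝ := (Ideal.absNorm f : ℝ)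

/-- `|d_K|^(1/2) N(f)` -/
noncomputable def dN (f : Ideal (𝓞 K)) : ℝ := Real.sqrt |(discr K : ℝ)| * Nf K f

open scoped Classical in
/-- the linear form on the logarithmic space -/
noncomputable def pr (ν : InfinitePlace K → ℝ) (z : logSpace K) : ℝ :=
  ∑ w : {w : InfinitePlace K // w ≠ w₀}, (ν w.1 - ν w₀) * z w

open scoped Classical in
/-- the character `exp(-i pr(z))` -/
noncomputable def ec (ν : InfinitePlace K → ℝ) (z : logSpace K) : ℂ :=
  cexp (-((pr K ν z : ℝ) : ℂ) * I)

open scoped Classical in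
/-- a nonzero element of `f M` (if `M ≠ 0`) -/
noncomputable def z1 (f : Ideal (𝓞 K)) (M : FI K) : K :=
  if h : ∃ x : K, x ≠ 0 ∧ x ∈ (f : FI K) * M then h.choose else 1

open scoped Classical in
/-- the coefficient `sgn_S(x) |x|^(-i ν) ψ(x M⁻¹)`, extended periodically to `0` -/
noncomputable def cf {K : Type} [Field K] [NumberField K] {f : Ideal (𝓞 K)} (χ : HC K f)
    (M : FI K) (x : K) : ℂ :=
  sg K χ.S (if x = 0 then z1 K f M else x) *
    (starRingEnd ℂ) (ph χ.ν (if x = 0 then z1 K f M else x)) *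
    χ.ψ (idl K M (if x = 0 then z1 K f M else x))

open scoped Classical in
/-- the Gamma factor -/
noncomputable def gS (S : Finset (RP K)) (ν : InfinitePlace K → ℝ) (s : ℂ) : ℂ :=
  ∏ v : InfinitePlace K, if h : v.IsReal then
    Gammaℝ (s + (if (⟨v, h⟩ : RP K) ∈ S then 1 else 0) - ν v * I) else Gammaℂ (s - ν v * I)

/-- the constant `w 2^(-r₁-r₂)` -/
noncomputable def cw : ℝ :=
  (torsionOrder K : ℝ) * ((2 : ℝ) ^ (nrRealPlaces K + nrComplexPlaces K))⁻¹

/-! ### Real theta functions -/

/-- the theta function of the lattice `(M, z)`, normalised to covolume one -/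
noncomputable def FT (M : FI K) (z : logSpace K) (T : ℝ) : ℝ :=
  th K M (yc K (Real.log (T / cv K M)) z)

/-- the completed Epstein zeta function of `(M, z)` at `1 + κ` -/
noncomputable def AK (κ : ℝ) (M : FI K) (z : logSpace K) : ℝ :=
  ∫ T in Ioi (0 : ℝ), (FT K M z T - 1) * T ^ κ

/-! ### Complex theta functions -/

/-- the theta series with coefficients `c` and a complex parameter `ζ` -/
noncomputable def tz (S : Finset (RP K)) (M : FI K) (c : K → ℂ) (ζ : ℂ)
    (y : InfinitePlace K → ℝ) : ℂ :=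
  ∑' x : {x : K // x ∈ M}, c x * ((ws K S y x : ℝ) : ℂ) *
    (cexp (ζ * S.card / 2) * cexp (-Real.pi * (cexp ζ * ((qK K y x : ℝ) : ℂ))))

open scoped Classical in
/-- the indicator function of `r + f M` -/
noncomputable def ci (f : Ideal (𝓞 K)) (M : FI K) (r x : K) : ℂ :=
  if x - r ∈ (f : FI K) * M then 1 else 0

/-- the additive character of `r` -/
noncomputable def ca (r x : K) : ℂ :=
  cexp (2 * Real.pi * I * ((Algebra.trace ℚ K (r * x) : ℚ) : ℂ))

/-- the theta function of the coset `r + f M` (`φ` is the angle) -/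
noncomputable def W (S : Finset (RP K)) (f : Ideal (𝓞 K)) (M : FI K) (r : K) (φ : ℝ)
    (z : logSpace K) (T : ℝ) : ℂ :=
  tz K S M (ci K f M r) (φ * I) (yc K (Real.log (T / cv K ((f : FI K) * M))) z)

/-- the dual theta function -/
noncomputable def W' (S : Finset (RP K)) (f : Ideal (𝓞 K)) (M : FI K) (r : K) (φ : ℝ)
    (z : logSpace K) (T : ℝ) : ℂ :=
  tz K S (du K ((f : FI K) * M)) (ca K r) (-(φ * I))
    (yc K (Real.log (T * cv K ((f : FI K) * M))) (-z))

open scoped Classical in
/-- the constant term of `W` -/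
noncomputable def d0 (S : Finset (RP K)) (f : Ideal (𝓞 K)) (M : FI K) (r : K) : ℂ :=
  if S = ∅ ∧ r ∈ (f : FI K) * M then 1 else 0

open scoped Classical in
/-- the constant term of `W'` -/
noncomputable def d1 (S : Finset (RP K)) : ℂ := if S = ∅ then 1 else 0

/-- the root number of the coset -/
noncomputable def rn (S : Finset (RP K)) (φ : ℝ) : ℂ :=
  cexp (-(φ * Module.finrank ℚ K / 2) * I) * (-I) ^ S.card

/-- the entire part of the Mellin transform of `W` -/
noncomputable def E0 (S : Finset (RP K)) (f : Ideal (𝓞 K)) (M : FI K) (r : K) (φ : ℝ)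
    (z : logSpace K) (s : ℂ) : ℂ :=
  (∫ T in Ioi (1 : ℝ), (W K S f M r φ z T - d0 K S f M r) * (T : ℂ) ^ (s - 1)) +
    rn K S φ * ∫ T in Ioi (1 : ℝ), (W' K S f M r φ z T - d1 K S) * (T : ℂ) ^ (-s)

/-- the Mellin transform of `W` -/
noncomputable def EZ (S : Finset (RP K)) (f : Ideal (𝓞 K)) (M : FI K) (r : K) (φ : ℝ)
    (z : logSpace K) (s : ℂ) : ℂ :=
  E0 K S f M r φ z s - d0 K S f M r / s - rn K S φ * d1 K S / (1 - s)

open scoped Classical in
/-- the completed `L`-function (with the angle `φ`) -/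
noncomputable def Lam {K : Type} [Field K] [NumberField K] {f : Ideal (𝓞 K)} (D : Sys K f)
    (χ : HC K f) (φ : ℝ) (s : ℂ) : ℂ :=
  ∑ c, ∑ r ∈ D.X c, cf χ (D.M c) r *
    ∫ z in Fd K, ec K χ.ν z * EZ K χ.S f (D.M c) r φ z s

end NF

end Pool.Agent.H23.LB
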